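import Pool.Agent.PCO.StmtsB

/-!
# PCO squad, row CPF: smoothness of the cone of `U` and of the face of `a + v` at `a`
-/

set_option autoImplicit false

open Matrix Filter Topology

namespace Pool.Agent.PCO.H40

open Pool.Agent.PFS Pool.Agent.PFJ Pool.Agent.PCO

/-- **Row CPF.** -/
theorem cpf (hBF1 : Bf1Stmt) (hBF2 : Bf2Stmt) (hBF3 : Bf3Stmt) (hSMF : SmfStmt)
    (hTZA : TzaStmt) : CpfStmt := by
  intro n C Γ d H U v a hB hd ha
  obtain ⟨haU, haC, ha0, hau⟩ := id ha
  -- the second boundary element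
  obtain ⟨c, hc, hcne⟩ := (hBF2 n C Γ H.toCC H.maxc U v hB).2.2.2.1 a 0
  have hInd : Ind2 a c := by
    intro α β hαβ
    have hβ : β = 0 := by
      by_contra hβ
      apply hcne (-(α / β)) 0
      have h1 : β • c = -(α • a) := by
        have : α • a + β • c = 0 := hαβ
        rw [eq_neg_iff_add_eq_zero, add_comm]; exact this
      have h2 : c = β⁻¹ • (β • c) := by rw [smul_smul, inv_mul_cancel₀ hβ, one_smul]
      rw [h2, h1, smul_zero, add_zero, smul_neg, smul_smul, neg_smul]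
      congr 2
      field_simp
    subst hβ
    rw [zero_smul, add_zero] at hαβ
    rcases smul_eq_zero.mp hαβ with h | h
    · exact ⟨h, rfl⟩
    · exact absurd h ha0
  obtain ⟨T, U', -, -, -, -, hTa, -, hker, hTU, hTq⟩ :=
    hTZA n C Γ d H U v v a c hB hB hd ha hc hInd
  have hS3 := (hSMF n C H.toCC.toPCone a haC).2.2.1
  have hzero : ∀ (ψ : V n →ₗ[ℝ] ℝ), (∀ x ∈ closure C, 0 ≤ ψ x) → ψ a = 0 →
      ∀ (x z : V n) (s : ℝ), T x = s • T z → ψ x = s * ψ z := by
    intro ψ hψ hψa x z s hx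
    have h0 : T (x - s • z) = 0 := by rw [map_sub, map_smul, hx, sub_self]
    have h1 := hS3 ψ hψ hψa _ (hker _ h0)
    rw [map_sub, map_smul, smul_eq_mul, sub_eq_zero] at h1
    exact h1
  refine ⟨?_, ?_, ?_⟩
  · intro ψ φ hψ hφ hψa hφa x hx y hy
    obtain ⟨s, hs⟩ := hTU x hx
    obtain ⟨t, ht⟩ := hTU y hy
    rw [hzero ψ hψ hψa x c s hs, hzero φ hφ hφa x c s hs, hzero ψ hψ hψa y c t ht,
      hzero φ hφ hφa y c t ht]
    ring
  · intro ψ φ hψ hφ hψa hφa q hq q' hq' M M' hM hM'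
    obtain ⟨s, hs⟩ := hTq q hq M hM
    obtain ⟨t, ht⟩ := hTq q' hq' M' hM'
    rw [hzero ψ hψ hψa q v s hs, hzero φ hφ hφa q v s hs, hzero ψ hψ hψa q' v t ht,
      hzero φ hφ hφa q' v t ht]
    ring
  · intro ψ hψ u hu hψu
    obtain ⟨t, ht⟩ := hTU u hu
    have h0 : T (u - t • c) = 0 := by rw [map_sub, map_smul, ht, sub_self]
    have hsml := hker _ h0
    obtain ⟨-, -, -, -, -, hfv, ⟨f, hf⟩, -, -⟩ := hBF1 n C Γ H.toCC H.maxc U v hB
    have hx0 : f + (1 : ℝ) • v ∈ C := (hfv f hf.1 1).mpr ⟨hf, one_pos⟩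
    have hcU : c ∈ U := hc.1
    have hwU : u - t • c ∈ U := U.sub_mem hu (U.smul_mem _ hcU)
    have key : ∀ τ : ℝ, 0 < τ → ψ (u - t • c) ≤ τ * ψ f ∧ -ψ (u - t • c) ≤ τ * ψ f := by
      intro τ hτ
      obtain ⟨κ, -, h1, h2⟩ := hsml _ hx0 τ hτ
      have e1 : κ • a + τ • (f + (1 : ℝ) • v) - (u - t • c)
          = (κ • a + τ • f - (u - t • c)) + τ • v := by
        rw [one_smul, smul_add]; abel
      have e2 : κ • a + τ • (f + (1 : ℝ) • v) + (u - t • c)
          = (κ • a + τ • f + (u - t • c)) + τ • v := by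
        rw [one_smul, smul_add]; abel
      rw [e1] at h1
      rw [e2] at h2
      have hbU : κ • a + τ • f ∈ U := U.add_mem (U.smul_mem _ haU) (U.smul_mem _ hf.1)
      have m1 := U.sub_mem hbU hwU
      have m2 := U.add_mem hbU hwU
      have p1 := hψ.pos _ m1 (hB.comp _ m1 τ h1).1
      have p2 := hψ.pos _ m2 (hB.comp _ m2 τ h2).1
      rw [map_sub, map_add, map_smul, map_smul, hψ.at_, smul_zero, zero_add, smul_eq_mul] at p1
      rw [map_add, map_add, map_smul, map_smul, hψ.at_, smul_zero, zero_add, smul_eq_mul] at p2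
      exact ⟨by linarith, by linarith⟩
    have hψf : 0 < ψ f := hψ.unt f hf
    have hle : ψ (u - t • c) ≤ 0 := by
      by_contra hcon
      push Not at hcon
      have := (key (ψ (u - t • c) / (2 * ψ f)) (by positivity)).1
      have e : ψ (u - t • c) / (2 * ψ f) * ψ f = ψ (u - t • c) / 2 := by
        field_simp
      rw [e] at this
      linarith
    have hge : -ψ (u - t • c) ≤ 0 := by
      by_contra hcon
      push Not at hcon
      have := (key (-ψ (u - t • c) / (2 * ψ f)) (by positivity)).2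
      have e : -ψ (u - t • c) / (2 * ψ f) * ψ f = -ψ (u - t • c) / 2 := by
        field_simp
      rw [e] at this
      linarith
    have hz : ψ (u - t • c) = 0 := by linarith
    rw [map_sub, map_smul, hψu, smul_eq_mul, zero_sub, neg_eq_zero] at hz
    have hψc : 0 < ψ c :=
      (hBF3 n C Γ H.toCC H.maxc U v hB).2.2.2.1 a ψ ha hψ c hcU hc.2.1 hInd
    have ht0 : t = 0 := by
      rcases mul_eq_zero.mp hz with h | h
      · exact h
      · exact absurd h hψc.ne'
    apply hker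
    rw [ht, ht0, zero_smul]

end Pool.Agent.PCO.H40
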